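import Mathlib
import Pool.Agent.helper35.HardyNoUncond
import Pool.Agent.helper35.HU.Uncond

/-!
The local estimate: unconditional representations of the span of monomials are exponentially bad.
-/

set_option autoImplicit false

open Filter Topology MeasureTheory Metric Complex
open scoped ENNReal ComplexConjugate

namespace Pool.Agent.Helper35.HU

/-- If a product of two nonnegative families is bounded pointwise in sum, so are the integrals. -/
theorem sum_integral_le {ι : Type*} {n : ℕ} (S : Finset ι) (a b : ι → (Fin n → T1) → ℝ)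
    (ha : ∀ i, Continuous (a i)) (hb : ∀ i, Continuous (b i)) (R : ℝ)
    (h : ∀ t s, ∑ i ∈ S, a i t * b i s ≤ R) :
    ∑ i ∈ S, (∫ t, a i t ∂(piT n)) * (∫ s, b i s ∂(piT n)) ≤ R := by
  have h1 : ∀ t, ∑ i ∈ S, a i t * (∫ s, b i s ∂(piT n)) ≤ R := by
    intro t
    have h2 : ∑ i ∈ S, a i t * (∫ s, b i s ∂(piT n)) = ∫ s, ∑ i ∈ S, a i t * b i s ∂(piT n) := by
      rw [integral_finsetSum _ fun i _ => (integrable_T _ (hb i)).const_mul _]
      simp only [integral_const_mul]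
    rw [h2]
    have h3 := integral_mono (μ := piT n)
      (f := fun s => ∑ i ∈ S, a i t * b i s) (g := fun _ => R)
      (integrable_T _ (continuous_finsetSum _ fun i _ => continuous_const.mul (hb i)))
      (integrable_const _) (fun s => h t s)
    simpa using h3
  have h2 : ∑ i ∈ S, (∫ t, a i t ∂(piT n)) * (∫ s, b i s ∂(piT n))
      = ∫ t, ∑ i ∈ S, a i t * (∫ s, b i s ∂(piT n)) ∂(piT n) := by
    rw [integral_finsetSum _ fun i _ => (integrable_T _ (ha i)).mul_const _]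
    simp only [integral_mul_const]
  rw [h2]
  have h3 := integral_mono (μ := piT n)
    (f := fun t => ∑ i ∈ S, a i t * (∫ s, b i s ∂(piT n))) (g := fun _ => R)
    (integrable_T _ (continuous_finsetSum _ fun i _ => (ha i).mul continuous_const))
    (integrable_const _) h1
  simpa using h3

/-- The maximum of the one-variable kernel. -/
noncomputable def Mk (m : ℕ) : ℝ := 4 ^ m / ((2 * m).choose m : ℝ)

theorem Mk_pos (m : ℕ) : 0 < Mk m := by
  unfold Mk
  have : 0 < (2 * m).choose m := Nat.choose_pos (by omega)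
  have : (0 : ℝ) < ((2 * m).choose m : ℝ) := by exact_mod_cast this
  positivity

theorem kerG_le_Mk (m : ℕ) (θ : T1) : kerG m θ ≤ Mk m := by
  unfold kerG Mk
  have h2 : ‖1 + (fourier 1 θ : ℂ)‖ ≤ 2 := by
    refine (norm_add_le _ _).trans ?_
    rw [norm_fourier_one]; norm_num
  have h3 : ‖1 + (fourier 1 θ : ℂ)‖ ^ (2 * m) ≤ 4 ^ m := by
    calc ‖1 + (fourier 1 θ : ℂ)‖ ^ (2 * m) ≤ 2 ^ (2 * m) := pow_le_pow_left₀ (norm_nonneg _) h2 _
      _ = 4 ^ m := by rw [pow_mul]; norm_num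
  exact div_le_div_of_nonneg_right h3 (by positivity)

theorem Vt_le_Mk {n : ℕ} (m : ℕ) (t : Fin n → T1) (ω : Om) : Vt m t ω ≤ (Mk m) ^ n := by
  refine (Finset.prod_le_prod (fun _ _ => kerG_nonneg _ _) (fun k _ => kerG_le_Mk m _)).trans ?_
  simp

section Hardy

variable {p : ℝ≥0∞} [Fact (1 ≤ p)]

theorem norm_pair_Wt_le_Mk {n : ℕ} (hptop : p ≠ ∞) (m : ℕ) (t : Fin n → T1) (f : Lp ℂ p muT) :
    ‖pair hptop (Wt m t) f‖ ≤ ((Mk m) ^ n : ℝ) ^ (1 / p).toReal * ‖f‖ := by
  rw [pair_apply]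
  refine norm_integral_mul_le Fact.out hptop f _ (Vt m t) (continuous_Vt m t) (Vt_nonneg m t)
    (integral_Vt m t) _ (Vt_le_Mk m t) fun ω => ?_
  change ‖((Vt m t ω : ℝ) : ℂ)‖ ≤ _
  rw [Complex.norm_real, Real.norm_of_nonneg (Vt_nonneg m t ω)]

theorem norm_resF_Wt_le_Mk {n : ℕ} (hptop : p ≠ ∞) (m : ℕ) (t : Fin n → T1) :
    ‖resF (p := p) hptop (Wt m t)‖ ≤ ((Mk m) ^ n : ℝ) ^ (1 / p).toReal := by
  have := Mk_pos m
  refine ContinuousLinearMap.opNorm_le_bound _ (by positivity) fun f => ?_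
  rw [resF_apply, ← Submodule.norm_coe]
  exact norm_pair_Wt_le_Mk hptop m t _

/-- Abstract main estimate. -/
theorem local_estimate (hptop : p ≠ ∞) (E : ℕ) (n : ℕ) {ι : Type*}
    (u : ι → hardy p hptop) (a : ι → (Fin n → Fin (E + 4)) → ℂ)
    (hs : ∀ γ, HasSum (fun i => a i γ • u i) (monoH hptop E γ)) (K : ℝ)
    (hK : ∀ (t s : Fin n → T1) (S : Finset ι),
      ∑ i ∈ S, ‖resF hptop (Wt (E + 3) t) (u i)‖ * ‖∑ γ, xcoef s γ * a i γ‖ ≤ K) :
    tau E ^ n ≤ K := by
  set U : ι → (Fin n → Fin (E + 4)) → ℂ := fun i => arrU (E := E) hptop (u i : Lp ℂ p muT) with hU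
  set V : ι → (Fin n → Fin (E + 4)) → ℂ := fun i γ =>
    (∏ k, (xc (γ k) : ℂ)) * a i γ with hV
  have hUt : ∀ i t, trigP (U i) t = resF hptop (Wt (E + 3) t) (u i) := by
    intro i t
    rw [resF_apply, pair_Wt_eq_trigP hptop t _ (u i).2]
  have hVs : ∀ i s, trigP (V i) s = ∑ γ, xcoef s γ * a i γ := by
    intro i s
    unfold trigP
    refine Finset.sum_congr rfl fun γ _ => ?_
    rw [xcoef, Finset.prod_mul_distrib]
    simp only [hV]
    ring
  -- the trace
  have htr : ∀ γ : Fin n → Fin (E + 4),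
      HasSum (fun i => a i γ * resF hptop (mono (-toZ γ)) (u i)) 1 := by
    intro γ
    have h1 := (hs γ).mapL (resF hptop (mono (-toZ γ)))
    simp only [map_smul, smul_eq_mul] at h1
    have h2 : resF hptop (mono (-toZ γ)) (monoH hptop E γ) = 1 := by
      rw [resF_apply]
      have := pair_mono_mono (p := p) hptop (toZ γ) (toZ γ)
      rw [if_pos rfl] at this
      exact this
    rw [h2] at h1
    exact h1
  set wt : (Fin n → Fin (E + 4)) → ℝ := fun γ => ∏ k, lam (γ k) with hwt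
  have hwt0 : ∀ γ, 0 ≤ wt γ := fun γ => Finset.prod_nonneg fun _ _ => lam_nonneg _
  have htau : ((tau E : ℝ) : ℂ) ^ n = ∑ γ : Fin n → Fin (E + 4),
      (wt γ : ℂ) * (∏ k, (xc (γ k) : ℂ)) * (∏ k, (gc (E + 3) (E + 3 + γ k) : ℂ)) * 1 := by
    rw [tau]
    push_cast
    rw [Fintype.sum_pow]
    refine Finset.sum_congr rfl fun γ _ => ?_
    rw [Finset.prod_mul_distrib, Finset.prod_mul_distrib, hwt]
    push_cast
    ring
  have hsum : HasSum (fun i => ∑ γ : Fin n → Fin (E + 4), (wt γ : ℂ) * V i γ * U i γ)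
      (((tau E : ℝ) : ℂ) ^ n) := by
    rw [htau]
    have hfun : (fun i => ∑ γ : Fin n → Fin (E + 4), (wt γ : ℂ) * V i γ * U i γ) =
        fun i => ∑ γ : Fin n → Fin (E + 4),
          ((wt γ : ℂ) * (∏ k, (xc (γ k) : ℂ)) * (∏ k, (gc (E + 3) (E + 3 + γ k) : ℂ))) *
            (a i γ * resF hptop (mono (-toZ γ)) (u i)) := by
      funext i
      refine Finset.sum_congr rfl fun γ _ => ?_
      simp only [hV, hU, arrU]
      rw [resF_apply]
      have : mono (-fun k => ((γ k : ℕ) : ℤ)) = mono (-toZ γ) := rfl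
      rw [this]
      ring
    rw [hfun]
    exact hasSum_sum fun γ _ => (htr γ).mul_left
      ((wt γ : ℂ) * (∏ k, (xc (γ k) : ℂ)) * (∏ k, (gc (E + 3) (E + 3 + γ k) : ℂ)))
  set A : ι → ℝ := fun i => ∫ t, ‖trigP (U i) t‖ ∂(piT n) with hA
  set B : ι → ℝ := fun i => ∫ s, ‖trigP (V i) s‖ ∂(piT n) with hB
  have hA0 : ∀ i, 0 ≤ A i := fun i => integral_nonneg fun _ => norm_nonneg _
  have hB0 : ∀ i, 0 ≤ B i := fun i => integral_nonneg fun _ => norm_nonneg _
  have hterm : ∀ i, ‖∑ γ : Fin n → Fin (E + 4), (wt γ : ℂ) * V i γ * U i γ‖ ≤ A i * B i := by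
    intro i
    have h1 : ‖∑ γ : Fin n → Fin (E + 4), (wt γ : ℂ) * V i γ * U i γ‖
        ≤ ∑ γ : Fin n → Fin (E + 4), wt γ * ‖U i γ‖ * ‖V i γ‖ := by
      refine (norm_sum_le _ _).trans (Finset.sum_le_sum fun γ _ => ?_)
      rw [norm_mul, norm_mul, Complex.norm_real, Real.norm_of_nonneg (hwt0 γ)]
      exact le_of_eq (by ring)
    have h2 : (∑ γ : Fin n → Fin (E + 4), wt γ * ‖U i γ‖ * ‖V i γ‖) ^ 2 ≤ (A i * B i) ^ 2 := by
      have h3 := Finset.sum_mul_sq_le_sq_mul_sq Finset.univ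
        (fun γ => Real.sqrt (wt γ) * ‖U i γ‖) (fun γ => Real.sqrt (wt γ) * ‖V i γ‖)
      have h4 : ∀ γ, Real.sqrt (wt γ) * ‖U i γ‖ * (Real.sqrt (wt γ) * ‖V i γ‖)
          = wt γ * ‖U i γ‖ * ‖V i γ‖ := by
        intro γ
        have := Real.mul_self_sqrt (hwt0 γ)
        calc _ = (Real.sqrt (wt γ) * Real.sqrt (wt γ)) * ‖U i γ‖ * ‖V i γ‖ := by ring
          _ = _ := by rw [this]
      simp only [h4, mul_pow, Real.sq_sqrt (hwt0 _)] at h3
      refine h3.trans ?_
      rw [mul_pow]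
      refine mul_le_mul (ineq_n E n (U i)) (ineq_n E n (V i)) ?_ (sq_nonneg _)
      exact Finset.sum_nonneg fun γ _ => mul_nonneg (hwt0 γ) (sq_nonneg _)
    exact h1.trans (le_of_sq_le_sq h2 (mul_nonneg (hA0 i) (hB0 i)))
  have hfin : ∀ S : Finset ι,
      ‖∑ i ∈ S, ∑ γ : Fin n → Fin (E + 4), (wt γ : ℂ) * V i γ * U i γ‖ ≤ K := by
    intro S
    refine (norm_sum_le _ _).trans ((Finset.sum_le_sum fun i _ => hterm i).trans ?_)
    refine sum_integral_le S (fun i t => ‖trigP (U i) t‖) (fun i s => ‖trigP (V i) s‖)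
      (fun i => (continuous_trigP _).norm) (fun i => (continuous_trigP _).norm) K ?_
    intro t s
    simp only [hUt, hVs]
    exact hK t s S
  have hlim : ‖((tau E : ℝ) : ℂ) ^ n‖ ≤ K := by
    have h1 : Tendsto (fun S : Finset ι =>
        ‖∑ i ∈ S, ∑ γ : Fin n → Fin (E + 4), (wt γ : ℂ) * V i γ * U i γ‖) atTop
        (𝓝 ‖((tau E : ℝ) : ℂ) ^ n‖) := by
      have := hsum
      rw [HasSum, SummationFilter.unconditional_filter] at this
      exact this.norm
    exact le_of_tendsto h1 (Eventually.of_forall hfin)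
  rw [norm_pow, Complex.norm_real] at hlim
  calc tau E ^ n ≤ |tau E ^ n| := le_abs_self _
    _ = ‖tau E‖ ^ n := by rw [abs_pow, Real.norm_eq_abs]
    _ ≤ K := hlim

end Hardy

/-- The gain in one variable for degree `180`. -/
theorem tau177 : 1.02739 < tau 177 := by
  have hc1 : ((360).choose 181 : ℝ) * 181 = ((360).choose 180 : ℝ) * 180 := by
    have := Nat.choose_succ_right_eq 360 180
    norm_num at this
    exact_mod_cast this
  have hc2 : ((360).choose 182 : ℝ) * 182 = ((360).choose 181 : ℝ) * 179 := by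
    have := Nat.choose_succ_right_eq 360 181
    norm_num at this
    exact_mod_cast this
  have hc3 : ((360).choose 183 : ℝ) * 183 = ((360).choose 182 : ℝ) * 178 := by
    have := Nat.choose_succ_right_eq 360 182
    norm_num at this
    exact_mod_cast this
  have h0 : (0 : ℝ) < ((360).choose 180 : ℝ) := by
    exact_mod_cast Nat.choose_pos (by omega)
  rw [tau_eq]
  have g0 : gc 180 180 = 1 := gc_mid 180
  have g1 : gc 180 181 = 180 / 181 := by
    unfold gc
    norm_num only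
    rw [div_eq_div_iff h0.ne' (by norm_num)]
    linarith
  have g3 : gc 180 183 = (180 * 179 * 178) / (181 * 182 * 183) := by
    unfold gc
    norm_num only
    rw [div_eq_div_iff h0.ne' (by norm_num)]
    linarith
  have e0 : (177 + 3 : ℕ) = 180 := rfl
  have e1 : (177 + 4 : ℕ) = 181 := rfl
  have e3 : (177 + 6 : ℕ) = 183 := rfl
  rw [e0, e1, e3, g0, g1, g3]
  norm_num [xc]

theorem four_pow_le : (4 : ℝ) ^ 180 ≤ 23.7966 * ((Nat.choose 360 180 : ℕ) : ℝ) := by
  have h := Nat.choose_mul_factorial_mul_factorial (n := 360) (k := 180) (by norm_num)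
  have h1 : (Nat.factorial 180) * (Nat.factorial 180) * 4 ^ 180 * 10000
      ≤ 237966 * Nat.factorial 360 := by
    decide +kernel
  have h2 : (Nat.factorial 180) * (Nat.factorial 180) * (4 ^ 180 * 10000)
      ≤ (Nat.factorial 180) * (Nat.factorial 180) * (237966 * Nat.choose 360 180) := by
    have e : (360 - 180 : ℕ) = 180 := rfl
    rw [e] at h
    calc (Nat.factorial 180) * (Nat.factorial 180) * (4 ^ 180 * 10000)
        = (Nat.factorial 180) * (Nat.factorial 180) * 4 ^ 180 * 10000 := by ring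
      _ ≤ 237966 * Nat.factorial 360 := h1
      _ = (Nat.factorial 180) * (Nat.factorial 180) * (237966 * Nat.choose 360 180) := by
          rw [← h]; ring
  have h3 : 4 ^ 180 * 10000 ≤ 237966 * Nat.choose 360 180 :=
    Nat.le_of_mul_le_mul_left h2 (Nat.mul_pos (Nat.factorial_pos _) (Nat.factorial_pos _))
  have h4 : ((4 ^ 180 * 10000 : ℕ) : ℝ) ≤ ((237966 * Nat.choose 360 180 : ℕ) : ℝ) := by
    exact_mod_cast h3
  push_cast at h4
  linarith

theorem Mk180 : Mk 180 ≤ 23.7966 := by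
  have h0 : (0 : ℝ) < ((360).choose 180 : ℝ) := by
    exact_mod_cast Nat.choose_pos (by omega)
  have e : (2 * 180 : ℕ) = 360 := rfl
  unfold Mk
  rw [e, div_le_iff₀ h0]
  exact four_pow_le

/-- The final comparison of the two exponential rates. -/
theorem rate {a : ℝ} (ha0 : 0 ≤ a) (ha : a ≤ 1 / 120) {K : ℝ} {n : ℕ}
    (h : tau 177 ^ n ≤ 4 * (((Mk 180) ^ n : ℝ) ^ a * K)) : (1.0005 : ℝ) ^ n ≤ 4 * K := by
  have hM0 := Mk_pos 180
  set r : ℝ := (Mk 180) ^ a with hr
  have hr0 : 0 < r := by positivity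
  have hr1 : r ≤ 1.02678 := by
    have h1 : r ≤ (23.7966 : ℝ) ^ a := Real.rpow_le_rpow hM0.le Mk180 ha0
    have h2 : (23.7966 : ℝ) ^ a ≤ (23.7966 : ℝ) ^ (1 / 120 : ℝ) :=
      Real.rpow_le_rpow_of_exponent_le (by norm_num) ha
    have h3 : (23.7966 : ℝ) ≤ (1.02678 : ℝ) ^ (120 : ℕ) := by norm_num
    calc r ≤ (23.7966 : ℝ) ^ (1 / 120 : ℝ) := h1.trans h2
      _ ≤ ((1.02678 : ℝ) ^ (120 : ℕ)) ^ (1 / 120 : ℝ) :=
          Real.rpow_le_rpow (by positivity) h3 (by norm_num)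
      _ = 1.02678 := by
          rw [← Real.rpow_natCast, ← Real.rpow_mul (by norm_num)]
          norm_num
  have hpow : ((Mk 180) ^ n : ℝ) ^ a = r ^ n := by
    rw [hr]
    exact (Real.rpow_pow_comm hM0.le a n).symm
  rw [hpow] at h
  have hτ := tau177
  have hq : 1.0005 * r ≤ tau 177 := by
    have : 1.0005 * (1.02678 : ℝ) ≤ 1.02739 := by norm_num
    nlinarith
  have h5 : (1.0005 * r) ^ n ≤ 4 * (r ^ n * K) :=
    (pow_le_pow_left₀ (by positivity) hq n).trans h
  rw [mul_pow] at h5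
  have h6 : (1.0005 : ℝ) ^ n * r ^ n ≤ (4 * K) * r ^ n := by linarith
  exact le_of_mul_le_mul_right h6 (by positivity)

end Pool.Agent.Helper35.HU
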