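import Mathlib
import Pool.Agent.helper35.HU.Local

/-!
The Bohr lift of `n^{-s}` as a monomial on the infinite torus.
-/

set_option autoImplicit false

open Filter Topology MeasureTheory Metric Complex
open scoped ENNReal ComplexConjugate

namespace Pool.Agent.Helper35.HU

/-- The Bohr lift of `n^{-s}`. -/
noncomputable def bohrC (n : ℕ+) : C(Om, ℂ) where
  toFun ω := (n : ℕ).factorization.prod fun q k => (fourier (k : ℤ) (ω (Nat.primeCounting' q)) : ℂ)
  continuous_toFun := continuous_finsetProd _ fun i _ =>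
    (fourier _).continuous.comp (continuous_apply _)

theorem bohrC_apply (n : ℕ+) (ω : Om) : bohrC n ω =
    (n : ℕ).factorization.prod fun q k => (fourier (k : ℤ) (ω (Nat.primeCounting' q)) : ℂ) := rfl

theorem bohrC_one (ω : Om) : bohrC 1 ω = 1 := by
  rw [bohrC_apply]
  simp

theorem bohrC_mul (m n : ℕ+) (ω : Om) : bohrC (m * n) ω = bohrC m ω * bohrC n ω := by
  rw [bohrC_apply, bohrC_apply, bohrC_apply, PNat.mul_coe,
    Nat.factorization_mul m.ne_zero n.ne_zero, Finsupp.prod_add_index']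
  · intro q
    simp
  · intro q k l
    push_cast
    rw [fourier_add]

theorem bohrC_pow (m : ℕ+) (k : ℕ) (ω : Om) : bohrC (m ^ k) ω = bohrC m ω ^ k := by
  induction k with
  | zero => rw [pow_zero, pow_zero, bohrC_one]
  | succ k ih => rw [pow_succ, pow_succ, bohrC_mul, ih]

theorem bohrC_prod {ι : Type*} (S : Finset ι) (f : ι → ℕ+) (ω : Om) :
    bohrC (∏ i ∈ S, f i) ω = ∏ i ∈ S, bohrC (f i) ω := by
  classical
  induction S using Finset.induction_on with
  | empty => rw [Finset.prod_empty, Finset.prod_empty, bohrC_one]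
  | insert a S ha ih => rw [Finset.prod_insert ha, Finset.prod_insert ha, bohrC_mul, ih]

/-- The `k`-th prime as a positive natural number. -/
noncomputable def pr (k : ℕ) : ℕ+ := ⟨Nat.nth Nat.Prime k, (Nat.prime_nth_prime k).pos⟩

theorem bohrC_pr (k : ℕ) (ω : Om) : bohrC (pr k) ω = fourier 1 (ω k) := by
  rw [bohrC_apply]
  have h1 : ((pr k : ℕ+) : ℕ) = Nat.nth Nat.Prime k := rfl
  rw [h1, (Nat.prime_nth_prime k).factorization, Finsupp.prod_single_index]
  · rw [Nat.primeCounting'_nth_eq]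
    simp
  · simp

/-- The number with prescribed exponents. -/
noncomputable def num {n D : ℕ} (γ : Fin n → Fin D) : ℕ+ := ∏ k : Fin n, pr k ^ (γ k : ℕ)

theorem bohrC_num {n D : ℕ} (γ : Fin n → Fin D) : bohrC (num γ) = mono (toZ γ) := by
  ext ω
  rw [num, bohrC_prod]
  change _ = ∏ k, (fourier (toZ γ k) (ω k) : ℂ)
  refine Finset.prod_congr rfl fun k _ => ?_
  rw [bohrC_pow, bohrC_pr, toZ, fourier_natCast]

theorem num_dvd {n E : ℕ} (γ : Fin n → Fin (E + 4)) :
    ((num γ : ℕ+) : ℕ) ∣ (∏ j ∈ Finset.range n, Nat.nth Nat.Prime j) ^ (E + 3) := by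
  have h1 : ((num γ : ℕ+) : ℕ) = ∏ k : Fin n, (Nat.nth Nat.Prime k) ^ (γ k : ℕ) := by
    have h2 := map_prod PNat.coeMonoidHom (fun k : Fin n => pr k ^ (γ k : ℕ)) Finset.univ
    have h3 : PNat.coeMonoidHom (∏ k : Fin n, pr k ^ (γ k : ℕ)) = ((num γ : ℕ+) : ℕ) := rfl
    rw [← h3, h2]
    refine Finset.prod_congr rfl fun k _ => ?_
    rw [map_pow]
    rfl
  rw [h1, ← Finset.prod_pow, ← Fin.prod_univ_eq_prod_range (fun j => (Nat.nth Nat.Prime j) ^ (E + 3))]
  refine Finset.prod_dvd_prod_of_dvd _ _ fun k _ => ?_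
  exact pow_dvd_pow _ (by have := (γ k).isLt; omega)

theorem mem_hardy_of_nonneg {p : ℝ≥0∞} [Fact (1 ≤ p)] (hptop : p ≠ ∞) (n : ℕ+) :
    ContinuousMap.toLp p muT ℂ (bohrC n) ∈ hardy p hptop := by
  -- write the monomial with finitely many variables
  set N : ℕ := (n : ℕ) + 1 with hN
  set κ : Fin N → ℤ := fun k => (((n : ℕ).factorization (Nat.nth Nat.Prime k) : ℕ) : ℤ) with hκ
  have h1 : bohrC n = mono κ := by
    ext ω
    change (n : ℕ).factorization.prod (fun q k => (fourier (k : ℤ) (ω (Nat.primeCounting' q)) : ℂ))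
      = ∏ k : Fin N, (fourier (κ k) (ω k) : ℂ)
    have h2 : (∏ k : Fin N, (fourier (κ k) (ω k) : ℂ)) = ∏ j ∈ Finset.range N,
        (fourier (((n : ℕ).factorization (Nat.nth Nat.Prime j) : ℕ) : ℤ) (ω j) : ℂ) := by
      rw [← Fin.prod_univ_eq_prod_range (fun j =>
        (fourier (((n : ℕ).factorization (Nat.nth Nat.Prime j) : ℕ) : ℤ) (ω j) : ℂ))]
    rw [h2, Finsupp.prod]
    refine Finset.prod_of_injOn Nat.primeCounting' ?_ ?_ ?_ ?_
    · intro q hq q' hq' hqq
      have hqp : Nat.Prime q := Nat.prime_of_mem_primeFactors (n := (n : ℕ)) (by simpa using hq)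
      have hqp' : Nat.Prime q' := Nat.prime_of_mem_primeFactors (n := (n : ℕ)) (by simpa using hq')
      have e1 : Nat.nth Nat.Prime (Nat.primeCounting' q) = q := Nat.nth_count hqp
      have e2 : Nat.nth Nat.Prime (Nat.primeCounting' q') = q' := Nat.nth_count hqp'
      rw [← e1, ← e2, hqq]
    · intro q hq
      have hqf : q ∈ (n : ℕ).primeFactors := by simpa using hq
      have hle : q ≤ n := Nat.le_of_mem_primeFactors hqf
      have h3 : Nat.primeCounting' q ≤ q := Nat.count_le Nat.Prime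
      simp only [Finset.coe_range, Set.mem_Iio, hN]
      omega
    · intro j _ hj
      have h4 : (n : ℕ).factorization (Nat.nth Nat.Prime j) = 0 := by
        by_contra hne
        apply hj
        refine ⟨Nat.nth Nat.Prime j, ?_, Nat.primeCounting'_nth_eq j⟩
        exact Finsupp.mem_support_iff.mpr hne
      rw [h4]
      simp
    · intro q hq
      have hqp : Nat.Prime q := Nat.prime_of_mem_primeFactors (n := (n : ℕ)) (by simpa using hq)
      have e1 : Nat.nth Nat.Prime (Nat.primeCounting' q) = q := Nat.nth_count hqp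
      rw [e1]
  rw [h1]
  exact mono_mem hptop κ fun k => Int.natCast_nonneg _

/-- The `L^p` norm of a continuous function. -/
theorem norm_toLp_rpow {p : ℝ} (hp : 1 ≤ p) [Fact (1 ≤ ENNReal.ofReal p)] (F : C(Om, ℂ)) :
    ‖(ContinuousMap.toLp (ENNReal.ofReal p) muT ℂ F : Lp ℂ (ENNReal.ofReal p) muT)‖ ^ p
      = ∫ ω, ‖F ω‖ ^ p ∂muT := by
  have hp0 : 0 < p := by linarith
  have hne : ENNReal.ofReal p ≠ 0 := by
    rw [Ne, ENNReal.ofReal_eq_zero]
    linarith
  have hmem : MemLp (fun ω => F ω) (ENNReal.ofReal p) muT :=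
    (memLp_congr_ae (ContinuousMap.coeFn_toLp (𝕜 := ℂ) (p := ENNReal.ofReal p) muT F)).mp
      (Lp.memLp (ContinuousMap.toLp (ENNReal.ofReal p) muT ℂ F))
  rw [Lp.norm_def, eLpNorm_congr_ae (ContinuousMap.coeFn_toLp (𝕜 := ℂ) (p := ENNReal.ofReal p) muT F),
    hmem.eLpNorm_eq_integral_rpow_norm hne ENNReal.ofReal_ne_top, ENNReal.toReal_ofReal hp0.le,
    ENNReal.toReal_ofReal (by positivity), ← Real.rpow_mul (by positivity), inv_mul_cancel₀ hp0.ne',
    Real.rpow_one]

end Pool.Agent.Helper35.HU
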