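import Mathlib
import Pool.Agent.helper35.HU.Bohr

/-!
The Hardy space of Dirichlet series: local and global consequences of the main estimate.
-/

set_option autoImplicit false

open Filter Topology MeasureTheory Metric Complex
open scoped ENNReal ComplexConjugate

namespace Pool.Agent.Helper35.HU

/-- The finite-dimensional space of Dirichlet polynomials supported on the divisors of the
`180`-th power of the product of the first `n` primes. -/
noncomputable abbrev Fn {X : Type*} [NormedAddCommGroup X] [NormedSpace ℂ X] (d : ℕ+ → X) (n : ℕ) :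
    Submodule ℂ X :=
  Submodule.span ℂ (d '' {m : ℕ+ | (m : ℕ) ∣ (∏ j ∈ Finset.range n, Nat.nth Nat.Prime j) ^ 180})

/-- The transfer to the torus. -/
theorem exists_transfer {p : ℝ} (hp : 1 ≤ p) [Fact (1 ≤ ENNReal.ofReal p)]
    {X : Type*} [NormedAddCommGroup X] [NormedSpace ℂ X]
    (d : ℕ+ → X) (hdense : DenseRange (fun a : ℕ+ →₀ ℂ => a.sum fun n z => z • d n))
    (hnorm : ∀ a : ℕ+ →₀ ℂ, ‖a.sum fun n z => z • d n‖ ^ p
      = ∫ ω, ‖a.sum fun n z => z * bohrC n ω‖ ^ p ∂muT) :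
    ∃ T : X →L[ℂ] hardy (ENNReal.ofReal p) ENNReal.ofReal_ne_top, (∀ x, ‖T x‖ ≤ ‖x‖) ∧
      (∀ n, T (d n) = ⟨ContinuousMap.toLp (ENNReal.ofReal p) muT ℂ (bohrC n),
        mem_hardy_of_nonneg ENNReal.ofReal_ne_top n⟩) ∧
      ∀ a : ℕ+ →₀ ℂ, ‖T (a.sum fun n z => z • d n)‖ = ‖a.sum fun n z => z • d n‖ := by
  have hp0 : 0 < p := by linarith
  have hcomp : CompleteSpace (hardy (ENNReal.ofReal p) ENNReal.ofReal_ne_top) :=
    (isClosed_hardy ENNReal.ofReal_ne_top).completeSpace_coe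
  set v : ℕ+ → hardy (ENNReal.ofReal p) ENNReal.ofReal_ne_top := fun n =>
    ⟨ContinuousMap.toLp (ENNReal.ofReal p) muT ℂ (bohrC n),
      mem_hardy_of_nonneg ENNReal.ofReal_ne_top n⟩ with hv
  set L1 : (ℕ+ →₀ ℂ) →ₗ[ℂ] X := Finsupp.linearCombination ℂ d with hL1
  set L2 : (ℕ+ →₀ ℂ) →ₗ[ℂ] hardy (ENNReal.ofReal p) ENNReal.ofReal_ne_top :=
    Finsupp.linearCombination ℂ v with hL2
  have hL1a : ∀ a, L1 a = a.sum fun n z => z • d n := fun a => Finsupp.linearCombination_apply ℂ a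
  have hL2a : ∀ a, (L2 a : Lp ℂ (ENNReal.ofReal p) muT) =
      ContinuousMap.toLp (ENNReal.ofReal p) muT ℂ (a.sum fun n z => z • bohrC n) := by
    intro a
    rw [hL2, Finsupp.linearCombination_apply, Finsupp.sum, Submodule.coe_sum, Finsupp.sum, map_sum]
    refine Finset.sum_congr rfl fun n _ => ?_
    rw [Submodule.coe_smul, map_smul]
  have hn : ∀ a, ‖L2 a‖ = ‖L1 a‖ := by
    intro a
    have h1 : ‖L2 a‖ ^ p = ‖L1 a‖ ^ p := by
      rw [← Submodule.norm_coe, hL2a, norm_toLp_rpow hp, hL1a, hnorm]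
      refine integral_congr_ae (Eventually.of_forall fun ω => ?_)
      have h2 : (a.sum fun n z => z • bohrC n) ω = a.sum fun n z => z * bohrC n ω := by
        rw [Finsupp.sum, Finsupp.sum, ContinuousMap.sum_apply]
        rfl
      simp only [h2]
    exact (Real.rpow_left_inj (norm_nonneg _) (norm_nonneg _) hp0.ne').mp h1
  have hdense' : DenseRange L1 := by
    have : (L1 : (ℕ+ →₀ ℂ) → X) = fun a : ℕ+ →₀ ℂ => a.sum fun n z => z • d n := funext hL1a
    rw [this]
    exact hdense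
  have hbd : ∀ a, ‖L2 a‖ ≤ 1 * ‖L1 a‖ := fun a => by rw [one_mul, hn a]
  refine ⟨L2.extendOfNorm L1, fun x => ?_, fun n => ?_, fun a => ?_⟩
  · have := LinearMap.norm_extendOfNorm_apply_le hdense' 1 hbd x
    rwa [one_mul] at this
  · have h1 := LinearMap.extendOfNorm_eq hdense' ⟨1, hbd⟩ (Finsupp.single n 1)
    have h2 : L1 (Finsupp.single n 1) = d n := by
      rw [hL1, Finsupp.linearCombination_single, one_smul]
    have h3 : L2 (Finsupp.single n 1) = v n := by
      rw [hL2, Finsupp.linearCombination_single, one_smul]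
    rw [h2, h3] at h1
    exact h1
  · rw [← hL1a, LinearMap.extendOfNorm_eq hdense' ⟨1, hbd⟩ a, hn a]

/-- Local form. -/
theorem main_local {p : ℝ} (hp : 120 ≤ p)
    {X : Type*} [NormedAddCommGroup X] [NormedSpace ℂ X]
    (d : ℕ+ → X) (hdense : DenseRange (fun a : ℕ+ →₀ ℂ => a.sum fun n z => z • d n))
    (hnorm : ∀ a : ℕ+ →₀ ℂ, ‖a.sum fun n z => z • d n‖ ^ p
      = ∫ ω, ‖a.sum fun n z => z * bohrC n ω‖ ^ p ∂muT)
    (n : ℕ) (K : ℝ) {ι : Type*} (φ : ι → X →ₗ[ℂ] ℂ) (y : ι → X)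
    (hs : ∀ x ∈ Fn d n, HasSum (fun i => φ i x • y i) x)
    (hK : ∀ x ∈ Fn d n, ∀ S : Finset ι, ‖∑ i ∈ S, φ i x • y i‖ ≤ K * ‖x‖) :
    (1.0005 : ℝ) ^ n ≤ 4 * K := by
  have hp0 : 0 < p := by linarith
  have hfact : Fact (1 ≤ ENNReal.ofReal p) := ⟨by
    rw [← ENNReal.ofReal_one]; exact ENNReal.ofReal_le_ofReal (by linarith)⟩
  obtain ⟨T, hT1, hTd, hTn⟩ := exists_transfer (by linarith : (1 : ℝ) ≤ p) d hdense hnorm
  have hptop : ENNReal.ofReal p ≠ ∞ := ENNReal.ofReal_ne_top
  have hmem : ∀ γ : Fin n → Fin (177 + 4), d (num γ) ∈ Fn d n := fun γ =>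
    Submodule.subset_span ⟨num γ, num_dvd (E := 177) γ, rfl⟩
  have hTm : ∀ γ : Fin n → Fin (177 + 4), T (d (num γ)) = monoH hptop 177 γ := by
    intro γ
    rw [hTd]
    apply Subtype.ext
    change ContinuousMap.toLp (ENNReal.ofReal p) muT ℂ (bohrC (num γ))
      = ContinuousMap.toLp (ENNReal.ofReal p) muT ℂ (mono (toZ γ))
    rw [bohrC_num]
  set xs : (Fin n → T1) → X := fun s => ∑ γ : Fin n → Fin (177 + 4), xcoef s γ • d (num γ) with hxs
  have hxsmem : ∀ s, xs s ∈ Fn d n := fun s =>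
    Submodule.sum_mem _ fun γ _ => Submodule.smul_mem _ _ (hmem γ)
  have hTxs : ∀ s, T (xs s) = XH hptop 177 s := by
    intro s
    rw [hxs, map_sum, XH]
    refine Finset.sum_congr rfl fun γ _ => ?_
    rw [map_smul, hTm]
  have hxs1 : ∀ s, ‖xs s‖ ≤ 1 := by
    intro s
    set a : ℕ+ →₀ ℂ := ∑ γ : Fin n → Fin (177 + 4), Finsupp.single (num γ) (xcoef s γ) with ha
    have h1 : (a.sum fun n z => z • d n) = xs s := by
      have h2 : (a.sum fun n z => z • d n) = Finsupp.linearCombination ℂ d a :=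
        (Finsupp.linearCombination_apply ℂ a).symm
      rw [h2, ha, map_sum, hxs]
      refine Finset.sum_congr rfl fun γ _ => ?_
      rw [Finsupp.linearCombination_single]
    have h3 := hTn a
    rw [h1, hTxs] at h3
    rw [← h3]
    exact norm_XH_le hptop 177 (by norm_num) s
  have hK0 : 0 ≤ K := by
    have h1mem : d 1 ∈ Fn d n := Submodule.subset_span ⟨1, one_dvd _, rfl⟩
    have h1 := hK (d 1) h1mem ∅
    rw [Finset.sum_empty, norm_zero] at h1
    have h2 : ‖d 1‖ ^ p = 1 := by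
      have h3 := hnorm (Finsupp.single 1 1)
      have h4 : ((Finsupp.single (1 : ℕ+) (1 : ℂ)).sum fun n z => z • d n) = d 1 := by
        rw [Finsupp.sum_single_index] <;> simp
      have h5 : ∀ ω : Om, ((Finsupp.single (1 : ℕ+) (1 : ℂ)).sum fun n z => z * bohrC n ω) = 1 := by
        intro ω
        rw [Finsupp.sum_single_index]
        · rw [bohrC_one, one_mul]
        · rw [zero_mul]
      rw [h4] at h3
      rw [h3]
      simp only [h5]
      simp
    have h6 : 0 < ‖d 1‖ := by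
      rcases (norm_nonneg (d 1)).eq_or_lt with h | h
      · rw [← h, Real.zero_rpow hp0.ne'] at h2
        exact absurd h2 (by norm_num)
      · exact h
    by_contra hneg
    push Not at hneg
    have := mul_neg_of_neg_of_pos hneg h6
    linarith
  have key := local_estimate (p := ENNReal.ofReal p) hptop 177 n (fun i => T (y i))
    (fun i γ => φ i (d (num γ)))
    (fun γ => by
      have h1 := (hs (d (num γ)) (hmem γ)).mapL T
      simp only [map_smul] at h1
      rw [hTm γ] at h1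
      exact h1)
    (4 * (((Mk 180) ^ n : ℝ) ^ (1 / ENNReal.ofReal p).toReal * K))
    (by
      intro t s S
      set ψ : X →L[ℂ] ℂ := (resF hptop (Wt (177 + 3) t)).comp T with hψ
      have hψ1 : ∀ x, ‖ψ x‖ ≤ ((Mk 180) ^ n : ℝ) ^ (1 / ENNReal.ofReal p).toReal * ‖x‖ := by
        intro x
        have hM := Mk_pos 180
        rw [hψ, ContinuousLinearMap.comp_apply]
        refine ((resF hptop (Wt (177 + 3) t)).le_opNorm (T x)).trans ?_
        exact mul_le_mul (norm_resF_Wt_le_Mk hptop (177 + 3) t) (hT1 x) (norm_nonneg _)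
          (by positivity)
      have h1 : ∀ i, ‖resF hptop (Wt (177 + 3) t) (T (y i))‖
          * ‖∑ γ : Fin n → Fin (177 + 4), xcoef s γ * φ i (d (num γ))‖
          = ‖ψ (φ i (xs s) • y i)‖ := by
        intro i
        have h2 : φ i (xs s) = ∑ γ : Fin n → Fin (177 + 4), xcoef s γ * φ i (d (num γ)) := by
          rw [hxs, map_sum]
          refine Finset.sum_congr rfl fun γ _ => ?_
          rw [map_smul, smul_eq_mul]
        rw [map_smul, smul_eq_mul, norm_mul, h2, mul_comm]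
        rfl
      simp only [h1]
      refine sum_norm_le_of_subsums (fun i => ψ (φ i (xs s) • y i)) S _ fun F => ?_
      rw [← map_sum]
      have hM := Mk_pos 180
      have h3 : ‖∑ i ∈ F, φ i (xs s) • y i‖ ≤ K := by
        refine (hK (xs s) (hxsmem s) F).trans ?_
        calc K * ‖xs s‖ ≤ K * 1 := mul_le_mul_of_nonneg_left (hxs1 s) hK0
          _ = K := mul_one K
      exact (hψ1 _).trans (mul_le_mul_of_nonneg_left h3 (by positivity)))
  refine rate ENNReal.toReal_nonneg ?_ key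
  rw [one_div, ENNReal.toReal_inv, ENNReal.toReal_ofReal hp0.le]
  rw [← one_div]
  exact one_div_le_one_div_of_le (by norm_num) hp

/-- Global form. -/
theorem main_global {p : ℝ} (hp : 120 ≤ p)
    {X : Type*} [NormedAddCommGroup X] [NormedSpace ℂ X]
    (d : ℕ+ → X) (hdense : DenseRange (fun a : ℕ+ →₀ ℂ => a.sum fun n z => z • d n))
    (hnorm : ∀ a : ℕ+ →₀ ℂ, ‖a.sum fun n z => z • d n‖ ^ p
      = ∫ ω, ‖a.sum fun n z => z * bohrC n ω‖ ^ p ∂muT)
    {Y : Type*} [NormedAddCommGroup Y] [NormedSpace ℂ Y] [CompleteSpace Y] {ι : Type*}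
    (e : ι → Y) (he : ∀ y : Y, ∃! c : ι → ℂ, HasSum (fun i => c i • e i) y)
    (J : X →L[ℂ] Y) (P : Y →L[ℂ] X) : P.comp J ≠ ContinuousLinearMap.id ℂ X := by
  intro hPJ
  have hPJ' : ∀ x, P (J x) = x := fun x => congrArg (fun f : X →L[ℂ] X => f x) hPJ
  obtain ⟨c, K, hK0, hc, hK⟩ := uncond_bound e he
  have h1 : ∀ n : ℕ, (1.0005 : ℝ) ^ n ≤ 4 * (‖P‖ * (K * ‖J‖)) := by
    intro n
    refine main_local hp d hdense hnorm n _
      (fun i => (LinearMap.proj i).comp (c.comp J.toLinearMap)) (fun i => P (e i)) ?_ ?_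
    · intro x _
      have h2 := (hc (J x)).mapL P
      simp only [map_smul, hPJ'] at h2
      exact h2
    · intro x _ S
      have h3 : ∑ i ∈ S, ((LinearMap.proj i).comp (c.comp J.toLinearMap)) x • P (e i)
          = P (∑ i ∈ S, c (J x) i • e i) := by
        rw [map_sum]
        refine Finset.sum_congr rfl fun i _ => ?_
        rw [map_smul]
        rfl
      rw [h3]
      calc ‖P (∑ i ∈ S, c (J x) i • e i)‖ ≤ ‖P‖ * ‖∑ i ∈ S, c (J x) i • e i‖ := P.le_opNorm _
        _ ≤ ‖P‖ * (K * ‖J x‖) := mul_le_mul_of_nonneg_left (hK (J x) S) (norm_nonneg _)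
        _ ≤ ‖P‖ * (K * (‖J‖ * ‖x‖)) := by
            refine mul_le_mul_of_nonneg_left ?_ (norm_nonneg _)
            exact mul_le_mul_of_nonneg_left (J.le_opNorm x) hK0
        _ = ‖P‖ * (K * ‖J‖) * ‖x‖ := by ring
  obtain ⟨n, hn⟩ := pow_unbounded_of_one_lt (4 * (‖P‖ * (K * ‖J‖))) (by norm_num : (1 : ℝ) < 1.0005)
  exact absurd (h1 n) (not_le.mpr hn)

/-- Existence of the Hardy space. -/
theorem exists_space {p : ℝ} (hp : 1 ≤ p) :
    ∃ (X : Type) (_ : NormedAddCommGroup X) (_ : NormedSpace ℂ X) (_ : CompleteSpace X)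
      (d : ℕ+ → X), DenseRange (fun a : ℕ+ →₀ ℂ => a.sum fun n z => z • d n) ∧
      ∀ a : ℕ+ →₀ ℂ, ‖a.sum fun n z => z • d n‖ ^ p
        = ∫ ω, ‖a.sum fun n z => z * bohrC n ω‖ ^ p ∂muT := by
  have hfact : Fact (1 ≤ ENNReal.ofReal p) := ⟨by
    rw [← ENNReal.ofReal_one]; exact ENNReal.ofReal_le_ofReal hp⟩
  set v : ℕ+ → Lp ℂ (ENNReal.ofReal p) muT := fun n =>
    ContinuousMap.toLp (ENNReal.ofReal p) muT ℂ (bohrC n) with hv
  set M : Submodule ℂ (Lp ℂ (ENNReal.ofReal p) muT) :=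
    (Submodule.span ℂ (Set.range v)).topologicalClosure with hM
  have hcl : IsClosed (M : Set (Lp ℂ (ENNReal.ofReal p) muT)) :=
    Submodule.isClosed_topologicalClosure _
  have hvM : ∀ n, v n ∈ M := fun n =>
    Submodule.le_topologicalClosure _ (Submodule.subset_span ⟨n, rfl⟩)
  have hcoe : ∀ a : ℕ+ →₀ ℂ, ((a.sum fun n z => z • (⟨v n, hvM n⟩ : M) : M) :
      Lp ℂ (ENNReal.ofReal p) muT) = Finsupp.linearCombination ℂ v a := by
    intro a
    rw [Finsupp.linearCombination_apply, Finsupp.sum, Submodule.coe_sum, Finsupp.sum]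
    rfl
  refine ⟨M, inferInstance, inferInstance, hcl.completeSpace_coe, fun n => ⟨v n, hvM n⟩, ?_, ?_⟩
  · intro x
    rw [mem_closure_iff_seq_limit]
    have h9 : (M : Set (Lp ℂ (ENNReal.ofReal p) muT)) =
        closure ((Submodule.span ℂ (Set.range v) : Submodule ℂ _) : Set _) :=
      Submodule.topologicalClosure_coe _
    have hx : (x : Lp ℂ (ENNReal.ofReal p) muT) ∈
        closure ((Submodule.span ℂ (Set.range v) : Submodule ℂ _) : Set _) := h9.subset x.2
    rw [mem_closure_iff_seq_limit] at hx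
    obtain ⟨u, hu, hlim⟩ := hx
    have hu' : ∀ k, ∃ a : ℕ+ →₀ ℂ, Finsupp.linearCombination ℂ v a = u k := by
      intro k
      exact (Finsupp.mem_span_range_iff_exists_finsupp.mp (hu k)).imp fun a ha => by
        rw [Finsupp.linearCombination_apply]; exact ha
    choose a ha using hu'
    refine ⟨fun k => (a k).sum fun n z => z • (⟨v n, hvM n⟩ : M), fun k => ⟨a k, rfl⟩, ?_⟩
    rw [tendsto_subtype_rng]
    refine hlim.congr fun k => ?_
    rw [hcoe, ha]
  · intro a
    rw [← Submodule.norm_coe, hcoe]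
    have h1 : Finsupp.linearCombination ℂ v a =
        ContinuousMap.toLp (ENNReal.ofReal p) muT ℂ (a.sum fun n z => z • bohrC n) := by
      rw [Finsupp.linearCombination_apply, Finsupp.sum, Finsupp.sum, map_sum]
      refine Finset.sum_congr rfl fun n _ => ?_
      rw [map_smul]
    rw [h1, norm_toLp_rpow hp]
    refine integral_congr_ae (Eventually.of_forall fun ω => ?_)
    have h2 : (a.sum fun n z => z • bohrC n) ω = a.sum fun n z => z * bohrC n ω := by
      rw [Finsupp.sum, Finsupp.sum, ContinuousMap.sum_apply]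
      rfl
    simp only [h2]

end Pool.Agent.Helper35.HU
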